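import Pool.Agent.helper66.WD.Spec

/-!
# Row wd:RCO (reduction of a polynomial of small rank)
-/

set_option autoImplicit false

universe u

namespace Pool.Agent.WD

open MvPolynomial Pool.Agent.helper92.VC

theorem RCO (hDEM : DEM_stmt.{u}) (hSHP : SHP_stmt.{u}) (hHOP : HOP_stmt.{u}) (hMNP : MNP_stmt.{u})
    (hTOP : TOP_stmt.{u}) (hPOL : Pool.Agent.helper92.VC.POL_stmt.{u})
    (hCST : Pool.Agent.helper92.VC.CST_stmt.{u}) : RCO_stmt.{u} := by
  intro R K k _ _ _ _ _ _ _ π n ρ h l q β hl hq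
  obtain ⟨_, _, _, _, _, a6, a7⟩ := hDEM n R K (algebraMap R K)
  obtain ⟨_, _, _, _, _, b6, b7⟩ := hDEM n R k π
  obtain ⟨G, hG⟩ : ∃ G : MvPolynomial (Fin n) R, G = homogeneousComponent h (shift β q) := ⟨_, rfl⟩
  have hGK : MvPolynomial.map (algebraMap R K) G =
      homogeneousComponent h (shift (fun x => algebraMap R K (β x)) (MvPolynomial.map (algebraMap R K) q)) := by
    rw [hG, a7, a6]
  have hGk : MvPolynomial.map π G =
      homogeneousComponent h (shift (fun x => π (β x)) (MvPolynomial.map π q)) := by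
    rw [hG, b7, b6]
  have h1 := hSHP n K ρ l {MvPolynomial.map (algebraMap R K) q} (fun x => algebraMap R K (β x)) hq
  have h2 := hHOP n K ρ h l _ h1
  have h3 : RP (ρ * (h + 1)) l {MvPolynomial.map (algebraMap R K) G} := by
    refine hMNP n K _ _ l _ _ le_rfl ?_ h2
    intro p hp
    rw [Set.mem_singleton_iff] at hp
    exact ⟨_, Set.mem_image_of_mem _ (Set.mem_singleton _), h, le_rfl, by rw [hp, hGK]⟩
  have h4 := hTOP n K _ l _ hl h3
  have h5 : IsSumROABP (0 + 1) (ρ * (h + 1)) (MvPolynomial.map (algebraMap R K) G) :=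
    ⟨fun _ => MvPolynomial.map (algebraMap R K) G, fun _ => h4, by simp⟩
  have hdeg : ∀ i, (MvPolynomial.map π G).degreeOf i ≤ h := by
    intro i
    refine (MvPolynomial.degreeOf_le_totalDegree _ i).trans ?_
    rw [hGk]
    exact (MvPolynomial.homogeneousComponent_isHomogeneous h _).totalDegree_le
  have h6 := hPOL R K k π n 0 (ρ * (h + 1)) h G h5 hdeg
  have h7 := hCST n _ _ h k _ h6 hdeg
  rw [hGk] at h7
  have h8 : (n + 1) ^ 0 * (8 * (n + 1) * (h + 1) * (width (0 + 1) (ρ * (h + 1)) h + 1) ^ 2 + 1) =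
      8 * (n + 1) * (h + 1) * (ρ * (h + 1) + 2) ^ 2 + 1 := by
    unfold width
    norm_num
  rw [h8] at h7
  exact h7

end Pool.Agent.WD
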